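import Pool.Agent.L5helper98.CG.Defs

/-!
# Covariance matrices of the fields are positive semidefinite (piece FPSD)
-/

set_option autoImplicit false

open MeasureTheory ProbabilityTheory Set

namespace Pool.Agent.L5helper76.CG

open Pool.Agent.L5helper98.CG

theorem FPSD_holds : St_FPSD := by
  intro c r μ ε Ω _ P _ ω hF n t ht
  have hmem : ∀ i : Fin n, MemLp (ω (t i)) 2 P := fun i =>
    (hF.gauss.hasGaussianLaw_eval ⟨t i, ht i⟩).memLp_two
  have hcov : ∀ i j : Fin n, cv r μ ε (dst c (t i) (t j)) = cov[ω (t i), ω (t j); P] :=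
    fun i j => (hF.cov (t i) (ht i) (t j) (ht j)).symm
  refine Matrix.PosSemidef.of_dotProduct_mulVec_nonneg ?_ fun x => ?_
  · ext i j
    simp only [Matrix.conjTranspose_apply, star_trivial]
    change cv r μ ε (dst c (t j) (t i)) = cv r μ ε (dst c (t i) (t j))
    rw [hcov, hcov, covariance_comm]
  · have hm : ∀ i : Fin n, MemLp (x i • ω (t i)) 2 P := fun i => (hmem i).const_smul (x i)
    have h1 : cov[∑ i, x i • ω (t i), ∑ j, x j • ω (t j); P] =
        ∑ i, ∑ j, x i * (x j * cov[ω (t i), ω (t j); P]) := by
      rw [covariance_sum_sum hm hm]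
      refine Finset.sum_congr rfl fun i _ => Finset.sum_congr rfl fun j _ => ?_
      rw [covariance_smul_left, covariance_smul_right]
    have h2 : (0 : ℝ) ≤ cov[∑ i, x i • ω (t i), ∑ j, x j • ω (t j); P] := by
      rw [covariance_self]
      · exact variance_nonneg _ _
      · exact (memLp_finsetSum' Finset.univ fun i _ => hm i).aestronglyMeasurable.aemeasurable
    rw [h1] at h2
    refine h2.trans_eq ?_
    rw [dotProduct]
    simp only [Matrix.mulVec, dotProduct, star_trivial, Pi.star_apply, Finset.mul_sum]
    refine Finset.sum_congr rfl fun i _ => Finset.sum_congr rfl fun j _ => ?_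
    rw [← hcov i j]
    ring

end Pool.Agent.L5helper76.CG
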