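import Mathlib

/-!
# The law of the integral of a process is determined by the finite dimensional moments
-/

set_option autoImplicit false

open MeasureTheory ProbabilityTheory Filter Topology Set
open scoped ENNReal

namespace Pool.Agent.L5helper76.CG

/-- Bounded variables with the same moments have the same law. -/
theorem eq_of_moments {A B : Type} [MeasurableSpace A] [MeasurableSpace B] (P : Measure A)
    (Q : Measure B) [IsFiniteMeasure P] [IsFiniteMeasure Q] (I : A → ℝ) (J : B → ℝ) (M : ℝ)
    (hI : AEStronglyMeasurable I P) (hJ : AEStronglyMeasurable J Q) (hI' : ∀ x, I x ∈ Icc 0 M)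
    (hJ' : ∀ x, J x ∈ Icc 0 M) (h : ∀ k : ℕ, ∫ x, I x ^ k ∂P = ∫ x, J x ^ k ∂Q)
    (f : ℝ → ℝ) (hf : Continuous f) : ∫ x, f (I x) ∂P = ∫ x, f (J x) ∂Q := by
  have bdI : ∀ g : ℝ → ℝ, Continuous g → Integrable (fun x => g (I x)) P := fun g hg => by
    obtain ⟨C, hC⟩ := isCompact_Icc.exists_bound_of_continuousOn (s := Icc 0 M) hg.continuousOn
    exact Integrable.of_bound (hg.comp_aestronglyMeasurable hI) C
      (Eventually.of_forall fun x => hC _ (hI' x))
  have bdJ : ∀ g : ℝ → ℝ, Continuous g → Integrable (fun x => g (J x)) Q := fun g hg => by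
    obtain ⟨C, hC⟩ := isCompact_Icc.exists_bound_of_continuousOn (s := Icc 0 M) hg.continuousOn
    exact Integrable.of_bound (hg.comp_aestronglyMeasurable hJ) C
      (Eventually.of_forall fun x => hC _ (hJ' x))
  have key : ∀ p : Polynomial ℝ, ∫ x, p.eval (I x) ∂P = ∫ x, p.eval (J x) ∂Q := by
    intro p
    simp_rw [Polynomial.eval_eq_sum_range]
    rw [integral_finsetSum, integral_finsetSum]
    · refine Finset.sum_congr rfl fun k _ => ?_
      rw [integral_const_mul, integral_const_mul, h]
    · exact fun k _ => (bdJ (fun y => y ^ k) (by fun_prop)).const_mul _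
    · exact fun k _ => (bdI (fun y => y ^ k) (by fun_prop)).const_mul _
  refine eq_of_forall_dist_le fun ε hε => ?_
  set T : ℝ := P.real univ + Q.real univ + 1 with hT
  have hT0 : 0 < T := by
    have := measureReal_nonneg (μ := P) (s := univ)
    have := measureReal_nonneg (μ := Q) (s := univ)
    linarith
  obtain ⟨p, hp⟩ := exists_polynomial_near_of_continuousOn 0 M f hf.continuousOn (ε / T)
    (by positivity)
  have e1 : |∫ x, p.eval (I x) ∂P - ∫ x, f (I x) ∂P| ≤ ε / T * P.real univ := by
    rw [← integral_sub (bdI _ p.continuous) (bdI _ hf)]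
    have := norm_integral_le_of_norm_le_const (μ := P) (C := ε / T)
      (f := fun x => p.eval (I x) - f (I x))
      (Eventually.of_forall fun x => (hp _ (hI' x)).le)
    simpa using this
  have e2 : |∫ x, p.eval (J x) ∂Q - ∫ x, f (J x) ∂Q| ≤ ε / T * Q.real univ := by
    rw [← integral_sub (bdJ _ p.continuous) (bdJ _ hf)]
    have := norm_integral_le_of_norm_le_const (μ := Q) (C := ε / T)
      (f := fun x => p.eval (J x) - f (J x))
      (Eventually.of_forall fun x => (hp _ (hJ' x)).le)
    simpa using this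
  rw [Real.dist_eq]
  rw [key] at e1
  have e3 : ε / T * P.real univ + ε / T * Q.real univ ≤ ε := by
    have h1 : ε / T * T = ε := by field_simp
    have h2 : (0 : ℝ) < ε / T := by positivity
    nlinarith
  rw [abs_le] at e1 e2 ⊢
  constructor <;> linarith [e1.1, e1.2, e2.1, e2.2]

/-- the `k`-th moment of the integral of a bounded process -/
theorem moment_int {A : Type} [MeasurableSpace A] (P : Measure A) [IsFiniteMeasure P]
    (ν : Measure ℝ) [IsFiniteMeasure ν]
    (X : ℝ → A → ℝ) (hX : Measurable fun p : ℝ × A => X p.1 p.2) (M : ℝ)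
    (h0 : ∀ u x, 0 ≤ X u x) (hM : ∀ u x, X u x ≤ M) (k : ℕ) :
    ∫ x, (∫ u, X u x ∂ν) ^ k ∂P =
      ∫ u : Fin k → ℝ, (∫ x, ∏ i, X (u i) x ∂P) ∂(Measure.pi fun _ => ν) := by
  have hmeas : Measurable fun p : A × (Fin k → ℝ) => ∏ i, X (p.2 i) p.1 := by
    refine Finset.measurable_prod _ fun i _ => ?_
    have hi : Measurable fun p : A × (Fin k → ℝ) => (p.2 i, p.1) :=
      ((measurable_pi_apply i).comp measurable_snd).prodMk measurable_fst
    exact hX.comp hi
  have h1 : ∀ x, (∫ u, X u x ∂ν) ^ k =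
      ∫ u : Fin k → ℝ, ∏ i, X (u i) x ∂(Measure.pi fun _ => ν) := fun x => by
    have := integral_fintype_prod_eq_pow (𝕜 := ℝ) (ι := Fin k) (μ := ν) (fun u => X u x)
    rw [Fintype.card_fin] at this
    exact this.symm
  simp_rw [h1]
  rw [integral_integral_swap]
  refine Integrable.of_bound hmeas.aestronglyMeasurable (M ^ k) (Eventually.of_forall fun p => ?_)
  change ‖∏ i, X (p.2 i) p.1‖ ≤ M ^ k
  rw [norm_prod]
  refine (Finset.prod_le_prod (fun i _ => norm_nonneg _) (g := fun _ => M) fun i _ => ?_).trans ?_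
  · rw [Real.norm_of_nonneg (h0 _ _)]
    exact hM _ _
  · simp

/-- the law of the integral of a nonnegative process over `[0,1)` is determined by the finite
dimensional moments of its truncations -/
theorem law_eq {A B : Type} [MeasurableSpace A] [MeasurableSpace B] (P : Measure A)
    (Q : Measure B) [IsFiniteMeasure P] [IsFiniteMeasure Q] (X : ℝ → A → ℝ) (Y : ℝ → B → ℝ)
    (hX : Measurable fun p : ℝ × A => X p.1 p.2) (hY : Measurable fun p : ℝ × B => Y p.1 p.2)
    (hX0 : ∀ u x, 0 ≤ X u x) (hY0 : ∀ u x, 0 ≤ Y u x)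
    (hXi : ∀ᵐ x ∂P, IntegrableOn (fun u => X u x) (Ico 0 1))
    (hYi : ∀ᵐ x ∂Q, IntegrableOn (fun u => Y u x) (Ico 0 1))
    (h : ∀ (n : ℕ) (u : Fin n → ℝ), (∀ i, u i ∈ Ico (0 : ℝ) 1) → ∀ M : ℝ, 0 ≤ M →
      ∫ x, ∏ i, min (X (u i) x) M ∂P = ∫ x, ∏ i, min (Y (u i) x) M ∂Q)
    (F : ℝ → ℝ≥0∞) (hF : Measurable F) :
    ∫⁻ x, F (∫ u in Ico (0 : ℝ) 1, X u x) ∂P = ∫⁻ x, F (∫ u in Ico (0 : ℝ) 1, Y u x) ∂Q := by
  set ν : Measure ℝ := volume.restrict (Ico 0 1) with hν
  have hν1 : ν.real univ = 1 := by
    rw [hν]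
    simp [measureReal_def]
  have hmI : ∀ {C : Type} [MeasurableSpace C] (Z : ℝ → C → ℝ),
      (Measurable fun p : ℝ × C => Z p.1 p.2) → StronglyMeasurable fun x => ∫ u, Z u x ∂ν := by
    intro C _ Z hZ
    have : StronglyMeasurable (Function.uncurry fun (x : C) (u : ℝ) => Z u x) :=
      (hZ.comp measurable_swap).stronglyMeasurable
    exact this.integral_prod_right
  -- truncations
  have trunc : ∀ (M : ℝ), 0 ≤ M → ∀ f : ℝ → ℝ, Continuous f →
      ∫ x, f (∫ u, min (X u x) M ∂ν) ∂P = ∫ x, f (∫ u, min (Y u x) M ∂ν) ∂Q := by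
    intro M hM f hf
    have hXM : Measurable fun p : ℝ × A => min (X p.1 p.2) M := hX.min measurable_const
    have hYM : Measurable fun p : ℝ × B => min (Y p.1 p.2) M := hY.min measurable_const
    have bd : ∀ {C : Type} [MeasurableSpace C] (Z : ℝ → C → ℝ), (∀ u x, 0 ≤ Z u x) →
        ∀ x, ∫ u, min (Z u x) M ∂ν ∈ Icc 0 M := by
      intro C _ Z hZ0 x
      refine ⟨integral_nonneg fun u => le_min (hZ0 u x) hM, ?_⟩
      have := norm_integral_le_of_norm_le_const (μ := ν) (C := M)
        (f := fun u => min (Z u x) M) (Eventually.of_forall fun u => by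
          rw [Real.norm_of_nonneg (le_min (hZ0 u x) hM)]
          exact min_le_right _ _)
      rw [hν1, mul_one] at this
      exact (le_abs_self _).trans this
    refine eq_of_moments P Q _ _ M (hmI _ hXM).aestronglyMeasurable
      (hmI _ hYM).aestronglyMeasurable (bd X hX0) (bd Y hY0) (fun k => ?_) f hf
    rw [moment_int P ν (fun u x => min (X u x) M) hXM M (fun u x => le_min (hX0 u x) hM)
      (fun u x => min_le_right _ _) k,
      moment_int Q ν (fun u x => min (Y u x) M) hYM M (fun u x => le_min (hY0 u x) hM)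
      (fun u x => min_le_right _ _) k]
    refine integral_congr_ae ?_
    have hpi : (Measure.pi fun _ : Fin k => ν) =
        (Measure.pi fun _ : Fin k => (volume : Measure ℝ)).restrict
          (univ.pi fun _ => Ico (0 : ℝ) 1) := by
      rw [Measure.restrict_pi_pi]
    rw [hpi]
    filter_upwards [ae_restrict_mem (MeasurableSet.univ_pi fun _ => measurableSet_Ico)] with u hu
    exact h k u (fun i => hu i (mem_univ i)) M hM
  -- limit
  have lim : ∀ {C : Type} [MeasurableSpace C] (S : Measure C) [IsFiniteMeasure S]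
      (Z : ℝ → C → ℝ), (Measurable fun p : ℝ × C => Z p.1 p.2) → (∀ u x, 0 ≤ Z u x) →
      (∀ᵐ x ∂S, IntegrableOn (fun u => Z u x) (Ico 0 1)) → ∀ (f : ℝ → ℝ), Continuous f →
      ∀ K : ℝ, (∀ y, ‖f y‖ ≤ K) →
      Tendsto (fun m : ℕ => ∫ x, f (∫ u, min (Z u x) (m : ℝ) ∂ν) ∂S) atTop
        (𝓝 (∫ x, f (∫ u, Z u x ∂ν) ∂S)) := by
    intro C _ S _ Z hZ hZ0 hZi f hf K hK
    refine tendsto_integral_of_dominated_convergence (fun _ => K) (fun m => ?_)
      (integrable_const K) (fun m => Eventually.of_forall fun x => hK _) ?_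
    · exact hf.comp_aestronglyMeasurable
        (hmI (fun u x => min (Z u x) (m : ℝ)) (hZ.min measurable_const)).aestronglyMeasurable
    · filter_upwards [hZi] with x hx
      refine (hf.tendsto _).comp ?_
      refine tendsto_integral_of_dominated_convergence (fun u => Z u x) (fun m => ?_) hx
        (fun m => Eventually.of_forall fun u => ?_) (Eventually.of_forall fun u => ?_)
      · exact ((hZ.comp (measurable_id.prodMk measurable_const)).min
          measurable_const).aestronglyMeasurable
      · rw [Real.norm_of_nonneg (le_min (hZ0 u x) (Nat.cast_nonneg m))]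
        exact min_le_left _ _
      · obtain ⟨N, hN⟩ := exists_nat_ge (Z u x)
        refine tendsto_const_nhds.congr' ?_
        filter_upwards [eventually_ge_atTop N] with m hm
        rw [min_eq_left]
        exact hN.trans (by exact_mod_cast hm)
  have hmap : P.map (fun x => ∫ u, X u x ∂ν) = Q.map (fun x => ∫ u, Y u x ∂ν) := by
    have i1 : IsFiniteMeasure (P.map fun x => ∫ u, X u x ∂ν) :=
      Measure.isFiniteMeasure_map _ _
    have i2 : IsFiniteMeasure (Q.map fun x => ∫ u, Y u x ∂ν) :=
      Measure.isFiniteMeasure_map _ _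
    refine ext_of_forall_integral_eq_of_IsFiniteMeasure fun f => ?_
    rw [integral_map (hmI X hX).measurable.aemeasurable f.continuous.aestronglyMeasurable,
      integral_map (hmI Y hY).measurable.aemeasurable f.continuous.aestronglyMeasurable]
    have l1 := lim P X hX hX0 hXi f f.continuous ‖f‖ f.norm_coe_le_norm
    have l2 := lim Q Y hY hY0 hYi f f.continuous ‖f‖ f.norm_coe_le_norm
    refine tendsto_nhds_unique l1 (l2.congr fun m => ?_)
    exact (trunc (m : ℝ) (Nat.cast_nonneg m) f f.continuous).symm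
  rw [← lintegral_map hF (hmI X hX).measurable, ← lintegral_map hF (hmI Y hY).measurable, hmap]

end Pool.Agent.L5helper76.CG
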